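import Pool.Agent.U400.RT.Cen

set_option autoImplicit false
set_option linter.unusedSectionVars false

/-!
# Rank two, full subalgebras: the centre is not zero
-/

open Module Matrix TensorProduct

noncomputable section

namespace Pool.Agent.U400.RF

open Pool.Agent.Y102 Pool.Agent.W516.DR Pool.Agent.H204R3.GP Pool.Agent.W516.KC
  Pool.Agent.H204R3.SP Pool.Agent.TH119.MX Pool.Agent.R917 Pool.Agent.N208.AM Pool.Agent.N208.AD
  Pool.Agent.N208.BT Pool.Agent.N208.LC Pool.Agent.U400.RT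

variable {g : ℕ} {A : AbVar g} {z : Module.End ℚ A.H1} {al : ℝ}
  {𝔮 : Submodule ℚ (Module.End ℚ A.H1)} (hle : 𝔮 ≤ A.NA)
  (hcm : ∀ P : Module.End ℚ A.H1, (∀ X ∈ 𝔮, X * P = P * X) → ∀ X ∈ A.NA, X * P = P * X)

include hle hcm

/-- A bilinear form with values in `ℂ` which is annihilated by the Lie algebra is annihilated by all
central skew elements of the endomorphism algebra. -/
theorem central_kills (b : A.H1 →ₗ[ℚ] A.H1 →ₗ[ℚ] ℂ)
    (hb : ∀ X ∈ 𝔮, ∀ u v, b (X u) v + b u (X v) = 0)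
    (hzc : ∀ P ∈ A.EA, z * P = P * z) (hzs : IsSkew A.om z) (u v : A.H1) :
    b (z u) v + b u (z v) = 0 := by
  refine ne_of_lam fun lam => ?_
  let β : A.H1 →ₗ[ℚ] A.H1 →ₗ[ℚ] ℚ := b.compr₂ lam
  have hβ : ∀ u v, β u v = lam (b u v) := fun u v => rfl
  obtain ⟨P, hP⟩ := exists_op β
  have h0 : ∀ X ∈ 𝔮, X * P = P * X := by
    intro X hX
    refine LinearMap.ext fun v => ?_
    rw [← sub_eq_zero]
    refine A.om_nondeg fun u => ?_
    rw [A.om_anti]
    have e1 := congrArg lam (hb X hX u v)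
    rw [map_add, map_zero, ← hβ, ← hβ, hP, hP] at e1
    have e2 := A.NA_skew (hle hX) u (P v)
    rw [Module.End.mul_apply, Module.End.mul_apply, map_sub]
    linarith
  have h1 : P ∈ A.EA := fun X hX => hcm P h0 X (A.LA_le_NA hX)
  rw [map_add, ← hβ, ← hβ, hP, hP]
  have e2 := hzs u (P v)
  have e3 : z (P v) = P (z v) := LinearMap.congr_fun (hzc P h1) v
  rw [← e3]
  exact e2

/-- **The trace does not vanish on the Lie algebra**: otherwise the determinant of the
two-dimensional space is annihilated by the Lie algebra. -/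
theorem exists_trace (h : HQ A z al) {sg : Fin 2 → ℝ} {φ : VN 2 →ₗ[ℝ] (Fin g → ℂ)}
    (w : WN A z al 2 sg φ) : ∃ X ∈ 𝔮, ∃ m : MN 2, (∀ x, A.ext X (φ x) = φ (m *ᵥ x)) ∧
      m.trace ≠ 0 := by
  by_contra hcon
  push Not at hcon
  let e : Fin 2 → VN 2 := fun k => Pi.single k 1
  let b : A.H1 →ₗ[ℚ] A.H1 →ₗ[ℚ] ℂ := LinearMap.mk₂ ℚ
    (fun u v => FF A φ (e 0) u * FF A φ (e 1) v - FF A φ (e 1) u * FF A φ (e 0) v)
    (fun u u' v => by rw [map_add, map_add]; ring)
    (fun c u v => by rw [map_smul, map_smul, smul_mul_assoc, smul_mul_assoc, smul_sub])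
    (fun u v v' => by rw [map_add, map_add]; ring)
    (fun c u v => by rw [map_smul, map_smul, mul_smul_comm, mul_smul_comm, smul_sub])
  have hb : ∀ u v, b u v = FF A φ (e 0) u * FF A φ (e 1) v - FF A φ (e 1) u * FF A φ (e 0) v :=
    fun u v => rfl
  have hme : ∀ (m : MN 2) (k : Fin 2), m *ᵥ e k = m 0 k • e 0 + m 1 k • e 1 := by
    intro m k
    ext i
    fin_cases k <;> fin_cases i <;> simp [e, Matrix.mulVec, dotProduct, Fin.sum_univ_two]
  have h1 : ∀ X ∈ 𝔮, ∀ u v, b (X u) v + b u (X v) = 0 := by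
    intro X hX u v
    obtain ⟨m, hm⟩ := Pool.Agent.N441.BGSJ.mat_NA h w (hle hX)
    have ht := hcon X hX m hm
    rw [Matrix.trace_fin_two] at ht
    rw [hb, hb, FF_X (A.NA_skew (hle hX)) hm, FF_X (A.NA_skew (hle hX)) hm, FF_X (A.NA_skew (hle hX)) hm,
      FF_X (A.NA_skew (hle hX)) hm, hme, hme]
    simp only [FF_add, FF_smul]
    linear_combination (-(FF A φ (e 0) u * FF A φ (e 1) v - FF A φ (e 1) u * FF A φ (e 0) v)) * ht
  have h2 := central_kills hle hcm b h1 h.cen h.skew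
  have h3 : ∀ u v, b u v = 0 := by
    intro u v
    have h4 := h2 u v
    rw [hb, hb, FF_z h w, FF_z h w, FF_z h w, FF_z h w] at h4
    have h5 : (-2 * ((al : ℂ) * Complex.I)) * b u v = 0 := by
      rw [hb]
      linear_combination h4
    refine (mul_eq_zero.1 h5).resolve_left ?_
    exact mul_ne_zero (by norm_num) (mul_ne_zero (Complex.ofReal_ne_zero.2 h.ne) Complex.I_ne_zero)
  have he : ∀ k, e k ≠ 0 := by
    intro k hk
    have h4 := congrFun hk k
    simp [e] at h4
  obtain ⟨u, hu⟩ : ∃ u, FF A φ (e 0) u ≠ 0 := by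
    by_contra hc
    push Not at hc
    exact he 0 (FF_inj w hc)
  have h4 : FF A φ (e 0) u • e 1 - FF A φ (e 1) u • e 0 = 0 := by
    refine FF_inj w fun v => ?_
    have h5 := h3 u v
    rw [hb] at h5
    rw [sub_eq_add_neg, ← neg_smul, FF_add, FF_smul, FF_smul]
    linear_combination h5
  have h5 := congrFun h4 1
  simp [e] at h5
  exact hu h5

omit hle hcm

variable (hq : A.Full 𝔮)

include hq

/-- **The centre is not zero.** -/
theorem exists_centre (h : HQ A z al) {sg : Fin 2 → ℝ} {φ : VN 2 →ₗ[ℝ] (Fin g → ℂ)}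
    (w : WN A z al 2 sg φ) : ∃ Z ∈ 𝔮, (∀ Y ∈ 𝔮, Z * Y = Y * Z) ∧ Z ≠ 0 := by
  obtain ⟨X, hX, m, hm, ht⟩ := exists_trace hq.le hq.comm h w
  obtain ⟨Z, hZ, d, hd, h1, h2⟩ := hq.dec hX
  refine ⟨Z, hZ, h2, fun h0 => ht ?_⟩
  rw [h0, zero_add] at h1
  subst h1
  -- the trace of the matrices of the elements of the derived algebra
  have key : ∀ d ∈ der 𝔮, ∀ m : MN 2, (∀ x, A.ext d (φ x) = φ (m *ᵥ x)) → m.trace = 0 := by
    have hun : ∀ m m' : MN 2, (∀ x, φ (m *ᵥ x) = φ (m' *ᵥ x)) → m = m' := by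
      intro m m' hmm
      refine Matrix.ext_of_mulVec_single fun k => ?_
      exact w.inj (hmm _)
    have key2 : ∀ d ∈ der 𝔮, ∃ m : MN 2, (∀ x, A.ext d (φ x) = φ (m *ᵥ x)) ∧ m.trace = 0 := by
      intro d hd
      unfold der at hd
      induction hd using Submodule.span_induction with
      | mem d hd =>
        obtain ⟨X, hX, Y, hY, rfl⟩ := hd
        obtain ⟨a, ha⟩ := Pool.Agent.N441.BGSJ.mat_NA h w (hq.le hX)
        obtain ⟨b, hb⟩ := Pool.Agent.N441.BGSJ.mat_NA h w (hq.le hY)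
        refine ⟨a * b - b * a, fun x => ?_, ?_⟩
        · rw [ext_sub, ext_mul, ext_mul, LinearMap.sub_apply, Module.End.mul_apply,
            Module.End.mul_apply, hb, ha, ha, hb, Matrix.sub_mulVec, map_sub,
            Matrix.mulVec_mulVec, Matrix.mulVec_mulVec]
        · rw [Matrix.trace_sub, Matrix.trace_mul_comm, sub_self]
      | zero =>
        refine ⟨0, fun x => ?_, Matrix.trace_zero _ _⟩
        rw [Matrix.zero_mulVec, map_zero, ext_zero, LinearMap.zero_apply]
      | add a b _ _ ha hb =>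
        obtain ⟨m, hm, ht⟩ := ha
        obtain ⟨m', hm', ht'⟩ := hb
        exact ⟨m + m', fun x => by
          rw [ext_add, LinearMap.add_apply, hm, hm', Matrix.add_mulVec, map_add], by
          rw [Matrix.trace_add, ht, ht', add_zero]⟩
      | smul c a _ ha =>
        obtain ⟨m, hm, ht⟩ := ha
        refine ⟨(c : ℝ) • m, fun x => ?_, by rw [Matrix.trace_smul, ht, smul_zero]⟩
        rw [ext_smul, LinearMap.smul_apply, hm, Matrix.smul_mulVec, map_smul]
    intro d hd m hm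
    obtain ⟨m', hm', ht'⟩ := key2 d hd
    rw [hun m m' fun x => by rw [← hm, hm']]
    exact ht'
  exact key X hd m hm

end Pool.Agent.U400.RF
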