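import Pool.Agent.U400.RF.Full
import Pool.Agent.U400.RT.Quartic
import Pool.Agent.N208.OU.Main

set_option autoImplicit false
set_option linter.unusedSectionVars false

/-!
# Rank two: factors, and the centre
-/

open Module Matrix TensorProduct

noncomputable section

namespace Pool.Agent.U400.RF

open Pool.Agent.Y102 Pool.Agent.W516.DR Pool.Agent.H204R3.GP Pool.Agent.W516.KC
  Pool.Agent.H204R3.SP Pool.Agent.TH119.MX Pool.Agent.R917 Pool.Agent.N208.AM Pool.Agent.N208.AD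
  Pool.Agent.N208.BT Pool.Agent.N208.LC Pool.Agent.U400.RT Pool.Agent.R917.DT

section fac

variable {g g' : ℕ} {D : AbVar g} {C : AbVar g'} {f : D.H1 →ₗ[ℚ] C.H1} {p : C.H1 →ₗ[ℚ] D.H1}

theorem pull_EA (h : DT.Fac D C f p) {P' : Module.End ℚ C.H1} (hP : P' ∈ C.EA) :
    rs f p P' ∈ D.EA := by
  rw [AbVar.mem_EA] at hP ⊢
  obtain ⟨e, he⟩ := h.hf.algebraic
  obtain ⟨e', he'⟩ := h.hp.algebraic
  obtain ⟨a, ha⟩ := hP
  refine ⟨fun i l => ∑ j, ∑ k, e' i j * a j k * e k l, fun i w => ?_⟩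
  rw [rs_apply, he']
  simp only [ha, he, map_sum, map_mul, Finset.mul_sum, Finset.sum_mul]
  symm
  rw [Finset.sum_comm]
  refine Finset.sum_congr rfl fun j _ => ?_
  rw [Finset.sum_comm]
  exact Finset.sum_congr rfl fun k _ => Finset.sum_congr rfl fun l _ => by ring

theorem rs_p (h : DT.Fac D C f p) {X : Module.End ℚ C.H1} (hX : X ∈ C.NA) (v : C.H1) :
    rs f p X (p v) = p (X v) := by
  have h1 := LinearMap.congr_fun (C.NA_comm hX h.mem_EA) v
  change X (f (p v)) = f (p (X v)) at h1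
  rw [rs_apply, h1, h.pf]

/-- The restriction of a full subalgebra to a factor is full. -/
theorem rs_full (h : DT.Fac D C f p) {𝔮 : Submodule ℚ (Module.End ℚ C.H1)} (hq : C.Full 𝔮) :
    D.Full (𝔮.map (rs f p)) where
  le := by
    rintro _ ⟨X, hX, rfl⟩
    exact h.rs_NA (hq.le hX)
  br := by
    rintro _ ⟨X, hX, rfl⟩ _ ⟨Y, hY, rfl⟩
    refine ⟨X * Y - Y * X, hq.br X hX Y hY, ?_⟩
    rw [map_sub, h.rs_mul (hq.le hY), h.rs_mul (hq.le hX)]
  semi := by
    intro U hU
    obtain ⟨W', h1, h2⟩ := hq.semi (U.map f) (by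
      rintro X hX _ ⟨u, hu, rfl⟩
      exact ⟨rs f p X u, hU _ ⟨X, hX, rfl⟩ u hu, h.fix (hq.le hX) u⟩)
    refine ⟨W'.comap f, ?_, ?_⟩
    · rintro _ ⟨X, hX, rfl⟩ u hu
      change f (p (X (f u))) ∈ W'
      rw [h.fix (hq.le hX)]
      exact h1 X hX _ hu
    · refine ⟨?_, ?_⟩
      · rw [Submodule.disjoint_def]
        intro u hu hu'
        have h3 := Submodule.disjoint_def.1 h2.1 (f u) ⟨u, hu, rfl⟩ hu'
        rw [← h.pf u, h3, map_zero]
      · rw [codisjoint_iff, eq_top_iff]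
        intro u _
        have h3 : f u ∈ U.map f ⊔ W' := by
          rw [codisjoint_iff.1 h2.2]
          trivial
        obtain ⟨_, ⟨v, hv, rfl⟩, w, hw, h4⟩ := Submodule.mem_sup.1 h3
        refine Submodule.mem_sup.2 ⟨v, hv, u - v, ?_, by abel⟩
        change f (u - v) ∈ W'
        rw [map_sub, ← h4, add_sub_cancel_left]
        exact hw
  comm := by
    intro P hP X hX
    have h1 : ∀ Y ∈ 𝔮, Y * (f.comp (P.comp p) : Module.End ℚ C.H1) = (f.comp (P.comp p)) * Y := by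
      intro Y hY
      refine LinearMap.ext fun v => ?_
      change Y (f (P (p v))) = f (P (p (Y v)))
      rw [← h.fix (hq.le hY), ← rs_apply f p Y, ← rs_p h (hq.le hY)]
      have h2 := LinearMap.congr_fun (hP _ ⟨Y, hY, rfl⟩) (p v)
      exact congrArg f h2
    have h2 : (f.comp (P.comp p) : Module.End ℚ C.H1) ∈ C.EA := fun Y hY =>
      hq.comm _ h1 Y (C.LA_le_NA hY)
    have h3 := pull_EA h h2
    have h4 : rs f p (f.comp (P.comp p) : Module.End ℚ C.H1) = P := by
      refine LinearMap.ext fun v => ?_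
      change p (f (P (p (f v)))) = P v
      rw [h.pf, h.pf]
    rw [h4] at h3
    exact D.NA_comm hX h3

/-- the part of the tangent space of `C` which belongs to the factor -/
def UF (f : D.H1 →ₗ[ℚ] C.H1) (p : C.H1 →ₗ[ℚ] D.H1) : Set (Fin g' → ℂ) :=
  {x | C.ext (f.comp p : Module.End ℚ C.H1) x = x}

theorem ext_UF (h : DT.Fac D C f p) {X Y : Module.End ℚ C.H1} (hX : X ∈ C.NA) (hY : Y ∈ C.NA)
    (hXY : rs f p X = rs f p Y) {x : Fin g' → ℂ} (hx : x ∈ UF f p) : C.ext X x = C.ext Y x := by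
  have key : ∀ {Z : Module.End ℚ C.H1}, Z ∈ C.NA → Z * (f.comp p : Module.End ℚ C.H1) =
      f.comp ((rs f p Z).comp p) := by
    intro Z hZ
    refine LinearMap.ext fun v => ?_
    change Z (f (p v)) = f (p (Z (f (p v))))
    rw [h.fix hZ]
  have h1 : C.ext X (C.ext (f.comp p : Module.End ℚ C.H1) x) =
      C.ext Y (C.ext (f.comp p : Module.End ℚ C.H1) x) := by
    rw [← Module.End.mul_apply, ← Module.End.mul_apply, ← ext_mul, ← ext_mul, key hX, key hY, hXY]
  have hx' : C.ext (f.comp p : Module.End ℚ C.H1) x = x := hx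
  rwa [hx'] at h1

/-- **The part of an abelian variety given by a factor**, if the derived algebras of all full
subalgebras of the factor are equal. -/
theorem rpart_fac (h : DT.Fac D C f p)
    (hD : ∀ 𝔮 : Submodule ℚ (Module.End ℚ D.H1), D.Full 𝔮 → der D.NA ≤ der 𝔮) :
    RPart C (UF f p) where
  stab := by
    intro X hX u hu
    change C.ext (f.comp p : Module.End ℚ C.H1) (C.ext X u) = C.ext X u
    have hu' : C.ext (f.comp p : Module.End ℚ C.H1) u = u := hu
    rw [← Module.End.mul_apply, ← ext_mul, ← C.NA_comm hX h.mem_EA, ext_mul,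
      Module.End.mul_apply, hu']
  der := by
    intro 𝔮 hq X hX
    induction hX using Submodule.span_induction with
    | mem X hX =>
      obtain ⟨Z, hZ, rfl⟩ := hX
      have hle : ∀ {𝔯 : Submodule ℚ (Module.End ℚ C.H1)}, 𝔯 ≤ C.NA →
          (der 𝔯).map (rs f p) = der (𝔯.map (rs f p)) := by
        intro 𝔯 h𝔯
        unfold der
        rw [Submodule.map_span]
        congr 1
        ext T
        constructor
        · rintro ⟨_, ⟨X, hX, Y, hY, rfl⟩, rfl⟩
          refine ⟨_, ⟨X, hX, rfl⟩, _, ⟨Y, hY, rfl⟩, ?_⟩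
          rw [map_sub, h.rs_mul (h𝔯 hY), h.rs_mul (h𝔯 hX)]
        · rintro ⟨_, ⟨X, hX, rfl⟩, _, ⟨Y, hY, rfl⟩, rfl⟩
          refine ⟨_, ⟨X, hX, Y, hY, rfl⟩, ?_⟩
          rw [map_sub, h.rs_mul (h𝔯 hY), h.rs_mul (h𝔯 hX)]
      have h1 : rs f p Z ∈ der D.NA := by
        have h2 : rs f p Z ∈ (der C.NA).map (rs f p) := ⟨Z, hZ, rfl⟩
        rw [hle le_rfl] at h2
        unfold der at h2 ⊢
        refine (Submodule.span_mono ?_) h2
        rintro _ ⟨_, ⟨X, hX, rfl⟩, _, ⟨Y, hY, rfl⟩, rfl⟩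
        exact ⟨_, h.rs_NA hX, _, h.rs_NA hY, rfl⟩
      have h3 := hD _ (rs_full h hq) h1
      rw [← hle hq.le] at h3
      obtain ⟨Y, hY, hYZ⟩ := h3
      refine ⟨C.ext Y, mem_spE hY, fun u hu => ?_⟩
      exact (ext_UF h (hq.le (hq.der_le hY)) (full_NA.der_le hZ) hYZ hu).symm
    | zero => exact ⟨0, Submodule.zero_mem _, fun _ _ => rfl⟩
    | add a b _ _ ha hb =>
      obtain ⟨y, hy, h1⟩ := ha
      obtain ⟨y', hy', h1'⟩ := hb
      exact ⟨y + y', Submodule.add_mem _ hy hy', fun u hu => by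
        rw [LinearMap.add_apply, LinearMap.add_apply, h1 u hu, h1' u hu]⟩
    | smul c a _ ha =>
      obtain ⟨y, hy, h1⟩ := ha
      exact ⟨c • y, Submodule.smul_mem _ c hy, fun u hu => by
        rw [LinearMap.smul_apply, LinearMap.smul_apply, h1 u hu]⟩

end fac

section univ

variable {g : ℕ} {A : AbVar g} {s n : ℕ} {r : Fin s → ℕ} {B : Fin n → Ten A r}

theorem rpart_univ (hD : ∀ 𝔮 : Submodule ℚ (Module.End ℚ A.H1), A.Full 𝔮 → der A.NA ≤ der 𝔮) :
    RPart A Set.univ where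
  stab := fun _ _ _ _ => trivial
  der := by
    intro 𝔮 hq X hX
    refine ⟨X, ?_, fun _ _ => rfl⟩
    unfold spE at hX ⊢
    refine (Submodule.span_mono ?_) hX
    rintro _ ⟨Z, hZ, rfl⟩
    exact ⟨Z, hD 𝔮 hq hZ, rfl⟩

theorem pR_relR {T : Submodule ℚ (Module.End ℚ A.H1)}
    {p : Module.End ℝ (Fin g → ℂ) × Matrix (Fin n) (Fin n) ℝ} (hp : p ∈ pR B T) :
    RelR B p.1 p.2 := by
  induction hp using Submodule.span_induction with
  | mem p hp =>
    obtain ⟨X, hX, M, hM, rfl⟩ := hp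
    exact hM.real
  | zero => exact RelR.zero
  | add a b _ _ ha hb => exact ha.add hb
  | smul c a _ ha => exact ha.smul c

/-- The domain of all motives is given by the whole homology. -/
theorem domU_univ (hB : LinearIndependent ℚ B) (N : Matrix (Fin n) (Fin n) ℝ) :
    DomU Set.univ B N := by
  intro p hp h0
  have h1 := pR_relR hp
  have h2 : p.1 = 0 := LinearMap.ext fun x => h0 x trivial
  rw [h2] at h1
  rw [h1.uniq hB RelR.zero, zero_mul, mul_zero]

end univ

section two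

variable {g : ℕ} {A : AbVar g} {z : Module.End ℚ A.H1} {Sg : Finset ℝ}

/-- **Rank two**: the derived algebras of all full subalgebras are equal. -/
theorem der_eq (h : H2 A z Sg) (hp : Prim A z Sg) {𝔮 : Submodule ℚ (Module.End ℚ A.H1)}
    (hq : A.Full 𝔮) : der A.NA ≤ der 𝔮 :=
  (N383.LCU.der_le_UU h.hF.mem full_NA).trans (H2_UU_le hq h hp)

/-- **Rank two**: the centre is rigid, if the relations between the eigenvalues of the nonzero
skew elements of the field are trivial. -/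
theorem rigid (h : H2 A z Sg)
    (hdom : ∀ p q : Polynomial ℚ, IsSkew A.om (Polynomial.aeval z p) →
      IsSkew A.om (Polynomial.aeval z q) → Polynomial.aeval z p ≠ 0 →
      Dom (Polynomial.aeval z p) (Polynomial.aeval z q)) : N208.CT.Rigid A := by
  intro X hX hgen Y hY
  have hpoly : ∀ T ∈ A.CN, ∃ q : Polynomial ℚ, T = Polynomial.aeval z q := by
    intro T hT
    have h1 := A.CN_le_ZA hT
    exact h.hF.gen T h1.1 h1.2.2
  obtain ⟨q, hq⟩ := hpoly X hX
  obtain ⟨q', hq'⟩ := hpoly Y hY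
  have hX0 : X ≠ 0 := by
    intro hX0
    obtain ⟨a, ha⟩ := h.ne
    obtain ⟨sg, φ, w, -⟩ := h.coord (Or.inl ha)
    have hle : der A.NA ≤ A.NA := full_NA.der_le
    have hcm : ∀ P : Module.End ℚ A.H1, (∀ X ∈ der A.NA, X * P = P * X) →
        ∀ X ∈ A.NA, X * P = P * X := by
      intro P hP T hT
      obtain ⟨Z, hZ, d, hd, rfl, hc⟩ := full_NA.dec hT
      have hZC : Z ∈ A.CN := ⟨hZ, fun Y hY => (hc Y hY).symm⟩
      have h1 : P * Z = Z * P := hgen P (fun Y hY W hW => (hP _ (Submodule.subset_span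
        ⟨Y, hY, W, hW, rfl⟩)).symm) (by rw [hX0, mul_zero, zero_mul]) Z hZC
      rw [add_mul, mul_add, h1, hP d hd]
    obtain ⟨T, hT, m, hm, ht⟩ := exists_trace hle hcm (h.hq (Or.inl ha)) w
    exact ht (trace_der full_NA (h.hq (Or.inl ha)) w hT hm)
  have h1 := (A.CN_le_ZA hX).2.1
  have h2 := (A.CN_le_ZA hY).2.1
  rw [hq] at h1 hX0 ⊢
  rw [hq'] at h2 ⊢
  exact hdom q q' h1 h2 hX0

end two

end Pool.Agent.U400.RF
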