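import Pool.Agent.U400.RF.Main
set_option autoImplicit false

/-!
# Motives generated by abelian varieties of rank two: definitions

See `Pool/Agent/Results/MP_57341d_ag/RankTwoMotives.lean` for explanations.
-/

open Module Matrix Pool.Agent.Y102 Pool.Agent.W516.DR Pool.Agent.H204R3.GP

noncomputable section

namespace Pool.Agent.U400.RF.Mot

variable {g : ℕ} (A : AbVar g)

/-! ### The field `K = ℚ[z]` -/

/-- `P` is an endomorphism of `A` (up to isogeny), in terms of its action on `H_1(A, ℚ)`: it respects
the de Rham structure. (By the theorem of Bost, which is proved in `Pool.Agent.Y102.AbVar.hodge_end`,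
these are the elements of `End(A) ⊗ ℚ`.) -/
def IsEndo (P : Module.End ℚ A.H1) : Prop := IsDeRhamBettiEnd QBar A.dR P

/-- The endomorphism `X` of `H_1(A, ℚ)` commutes with the endomorphisms of `A`. -/
def Commutes (X : Module.End ℚ A.H1) : Prop := ∀ P, IsEndo A P → X * P = P * X

/-- `X` is an element of `ℚ[z]`: a polynomial in `z`. -/
def InField (z X : Module.End ℚ A.H1) : Prop := ∃ q : Polynomial ℚ, X = Polynomial.aeval z q

/-- `X` is an element of `K⁻`: a polynomial in `z` which is skew-symmetric for the polarization. -/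
def InMinus (z X : Module.End ℚ A.H1) : Prop :=
  InField A z X ∧ ∀ u v, A.om (X u) v + A.om u (X v) = 0

/-- `X` is an element of `K⁺`: a polynomial in `z` which is symmetric for the polarization. -/
def InPlus (z X : Module.End ℚ A.H1) : Prop :=
  InField A z X ∧ ∀ u v, A.om (X u) v = A.om u (X v)

/-- The centre of the algebra of the endomorphisms is the field `ℚ[z]`, and `z` is skew-symmetric. -/
structure CentreField (z : Module.End ℚ A.H1) : Prop where
  endo : IsEndo A z
  central : Commutes A z
  generates : ∀ P, IsEndo A P → Commutes A P → InField A z P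
  skew : ∀ u v, A.om (z u) v + A.om u (z v) = 0
  nonzero : z ≠ 0
  /-- the nonzero elements of `ℚ[z]` are injective -/
  field : ∀ X, InField A z X → X ≠ 0 → Function.Injective X

/-! ### The places -/

/-- `i a` is an eigenvalue of `z` on the tangent space; here `H_1(A, ℝ) = ℂ ^ g` is the tangent space,
and `A.ext z` is the real linear extension of `z`. -/
def IsEigenvalue (z : Module.End ℚ A.H1) (a : ℝ) : Prop :=
  ∃ x : Fin g → ℂ, x ≠ 0 ∧ A.ext z x = ((a : ℂ) * Complex.I) • x

/-- The nonempty set `S` represents the indefinite places: `± S` is the set of the numbers `a` such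
that `i a` and `- i a` are eigenvalues of `z` on the tangent space. -/
structure Places (z : Module.End ℚ A.H1) (S : Finset ℝ) : Prop where
  nonempty : S.Nonempty
  disjoint : ∀ a ∈ S, -a ∉ S
  indefinite : ∀ a : ℝ, (a ∈ S ∨ -a ∈ S) ↔ (IsEigenvalue A z a ∧ IsEigenvalue A z (-a))

/-- **Primitive sets of places**: let `C` be a subfield of `K⁺`, such that all the places which have the
same restriction to `C` as a place in `S` are in `S`. Then `C = K⁺`. (The place given by `a` is
the embedding of `K⁺` which maps `q(z)` to `q(i a)`; here `i a` or `- i a` is an eigenvalue of `z` on the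
tangent space.) -/
def Primitive (z : Module.End ℚ A.H1) (S : Finset ℝ) : Prop :=
  ∀ C : Subalgebra ℚ (Module.End ℚ A.H1), (∀ X ∈ C, InPlus A z X) →
    (∀ a b : ℝ, (a ∈ S ∨ -a ∈ S) → (IsEigenvalue A z b ∨ IsEigenvalue A z (-b)) →
      (∀ q : Polynomial ℚ, Polynomial.aeval z q ∈ C →
        Polynomial.aeval ((a : ℂ) * Complex.I) q = Polynomial.aeval ((b : ℂ) * Complex.I) q) →
      (b ∈ S ∨ -b ∈ S)) →
    ∀ X, InPlus A z X → X ∈ C

/-- **Rank two**: the centre of the endomorphism algebra is the field `K = ℚ[z]`, the commutant of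
the endomorphisms is of degree two over `K`, `S` represents the indefinite places, and it is primitive,
or the number of its elements is prime to `[K⁺ : ℚ]`. -/
structure RankTwo (z : Module.End ℚ A.H1) (S : Finset ℝ) : Prop where
  centre : CentreField A z
  /-- the commutant of the endomorphisms is of dimension `4` over `ℚ[z]` -/
  degree : Set.finrank ℚ {X | Commutes A X} = 2 ^ 2 * Set.finrank ℚ {X | InField A z X}
  places : Places A z S
  primitive : Primitive A z S ∨ Nat.Coprime S.card (Set.finrank ℚ {X | InPlus A z X})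

/-! ### The Lie algebra -/

/-- The multilinear forms in `2m` variables in the rational homology. -/
abbrev Form (m : ℕ) : Type := MultilinearMap ℚ (fun _ : Fin m × Fin 2 => A.H1) ℚ

/-- `φ` is a de Rham-Betti class in `H^1(A) ^ {⊗ 2m} (m)`. -/
def IsDRB {m : ℕ} (φ : Form A m) : Prop :=
  IsDeRhamBettiForm QBar A.dR (2 * Real.pi * Complex.I) m φ

/-- `φ` is a Hodge class in `H^1(A) ^ {⊗ 2m} (m)`. -/
def IsHodge {m : ℕ} (φ : Form A m) : Prop := IsHodgeTensor (A.per : A.H1 →+ (Fin g → ℂ)) φ

/-- The endomorphism `X` annihilates the form `φ` (as a derivation). -/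
def Annihilates {m : ℕ} (X : Module.End ℚ A.H1) (φ : Form A m) : Prop :=
  ∀ v, ∑ k, φ (Function.update v k (X (v k))) = 0

/-- `X` is in the Lie algebra `𝔤`: it annihilates all classes that are Hodge classes and
de Rham-Betti classes. -/
def InLie (X : Module.End ℚ A.H1) : Prop :=
  ∀ (m : ℕ) (φ : Form A m), IsHodge A φ → IsDRB A φ → Annihilates A X φ

/-- `f` is a homomorphism (up to isogeny) from `D` to `A`: it is given by a linear map of the
tangent spaces, and the pull backs of the algebraic differential forms are algebraic. -/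
def IsHomomorphism {g₁ g₂ : ℕ} (D : AbVar g₁) (A : AbVar g₂) (f : D.H1 →ₗ[ℚ] A.H1) : Prop :=
  (∃ F : (Fin g₁ → ℂ) →ₗ[ℂ] (Fin g₂ → ℂ), ∀ w, F (D.per w) = A.per (f w)) ∧
    ∃ e : Fin g₂ ⊕ Fin g₂ → Fin g₁ ⊕ Fin g₁ → QBar,
      ∀ i w, A.dR i (f w) = ∑ j, algebraMap QBar ℂ (e i j) * D.dR j w

/-! ### Motives -/

variable {s n : ℕ} (r : Fin s → ℕ) (w : Fin s → ℤ)

/-- The Betti realization of the sum of the motives `h^1(A) ^ {⊗ r i} (w i)`: families of multilinear
forms in `r i` variables in the rational homology. -/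
abbrev Tensors : Type := ∀ i : Fin s, MultilinearMap ℚ (fun _ : Fin (r i) => A.H1) ℚ

variable {A r}

/-- `M` is the matrix of the action of the endomorphism `X` of the rational homology of `A` (as a
derivation) on the space of tensors with the basis `B`. -/
def IsLieMatrix (B : Fin n → Tensors A r) (X : Module.End ℚ A.H1)
    (M : Matrix (Fin n) (Fin n) ℚ) : Prop :=
  ∀ a i v, ∑ k, B a i (Function.update v k (X (v k))) = ∑ b, M b a * B b i v

/-- The subspace with the basis `B` is the Betti realization of a direct factor `M` of the sum of the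
motives `h^1(A) ^ {⊗ r i} (w i)`, and `P` is the matrix of the periods of `M` for the basis `B` and for
some basis of the de Rham realization of `M` over `ℚ̄`. -/
structure IsMotive (B : Fin n → Tensors A r) (P : Matrix (Fin n) (Fin n) ℂ) : Prop where
  /-- `B` is a basis of a subspace -/
  basis : LinearIndependent ℚ B
  /-- the subspace is stable under `𝔤` -/
  lie : ∀ X, InLie A X → ∃ M : Matrix (Fin n) (Fin n) ℚ, IsLieMatrix B X M
  /-- the subspace is stable under the weights -/
  weight : ∃ M : Matrix (Fin n) (Fin n) ℚ, ∀ a i v,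
    ((r i : ℚ) - 2 * w i) * B a i v = ∑ b, M b a * B b i v
  /-- the de Rham realization has a basis of elements with algebraic coefficients in terms of the
  tensor products of the elements of the basis of `H^1_dR(A / ℚ̄)` -/
  deRham : ∃ c : Fin n → ∀ i : Fin s, (Fin (r i) → Fin g ⊕ Fin g) → ℂ,
    (∀ a i J, IsAlgebraic ℚ (c a i J)) ∧ ∀ a i (v : Fin (r i) → A.H1),
      ∑ J, c a i J * ∏ k, A.dR (J k) (v k) =
        (2 * Real.pi * Complex.I) ^ (w i) * ∑ b, P b a * (B b i v : ℂ)
  /-- the matrix of the periods is invertible -/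
  det : P.det ≠ 0

/-! ### The Mumford-Tate domain -/

/-- `N` is the matrix of the action on `M` of the multiplication with `i` on `H_1(A, ℝ) = ℂ ^ g` (as a
derivation): the generator of the Lie algebra of the circle in the Hodge structure of `M`. -/
def IsComplexStructure (B : Fin n → Tensors A r) (N : Matrix (Fin n) (Fin n) ℝ) : Prop :=
  ∀ a i (j : Fin (r i) → Fin (2 * g)),
    ∑ k, ∑ l : Fin (2 * g), A.lam.repr (Complex.I • A.lam (j k)) l *
        (B a i (Function.update (fun p => Pi.single (j p) 1) k (Pi.single l 1)) : ℝ) =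
      ∑ b, N b a * (B b i (fun p => Pi.single (j p) 1) : ℝ)

variable (A) in
/-- The derived algebra `[𝔤, 𝔤]`. -/
def derivedLie : Submodule ℚ (Module.End ℚ A.H1) :=
  Submodule.span ℚ {Z | ∃ X, InLie A X ∧ ∃ Y, InLie A Y ∧ Z = X * Y - Y * X}

/-- `D` is a direct factor of `A` (up to isogeny): `f` and `p` are homomorphisms `D → A` and `A → D`, in
terms of the rational homology (given by a linear map of the tangent spaces, and the pull backs of the
algebraic differential forms are algebraic), and `p ∘ f` is the identity. -/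
structure IsFactor {g₁ g₂ : ℕ} (D : AbVar g₁) (A : AbVar g₂) (f : D.H1 →ₗ[ℚ] A.H1)
    (p : A.H1 →ₗ[ℚ] D.H1) : Prop where
  inclusion : IsHomomorphism D A f
  projection : IsHomomorphism A D p
  split : ∀ w, p (f w) = w

/-- The part of the Hodge group of `A` which acts trivially on the homology of the factor `D` acts
trivially on the Mumford-Tate domain of `M`: if an element of `[𝔤, 𝔤] ⊗ ℝ`, which acts on
`H_1(A, ℝ) = ℂ ^ g` by `q.1` and on `M` by `q.2`, acts trivially on `H_1(D, ℝ)` (the image of the
idempotent `f ∘ p`), then `q.2` commutes with the complex structure `N` of `M`. -/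
def DomainOf {g' : ℕ} {D : AbVar g'} (f : D.H1 →ₗ[ℚ] A.H1) (p : A.H1 →ₗ[ℚ] D.H1)
    (B : Fin n → Tensors A r) (N : Matrix (Fin n) (Fin n) ℝ) : Prop :=
  ∀ q ∈ Submodule.span ℝ {q : Module.End ℝ (Fin g → ℂ) × Matrix (Fin n) (Fin n) ℝ |
      ∃ X ∈ derivedLie A, ∃ M : Matrix (Fin n) (Fin n) ℚ, IsLieMatrix B X M ∧
        q = (A.ext X, M.map fun q => (q : ℝ))},
    (∀ x, A.ext (f.comp p : Module.End ℚ A.H1) x = x → q.1 x = 0) → q.2 * N = N * q.2

/-- The Lie algebra of the Hodge group of `M`: the smallest rational Lie algebra whose real span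
contains the complex structure `N`. -/
def hodgeLie (N : Matrix (Fin n) (Fin n) ℝ) : Submodule ℚ (Matrix (Fin n) (Fin n) ℚ) :=
  sInf {L | (∀ x ∈ L, ∀ y ∈ L, x * y - y * x ∈ L) ∧
    N ∈ Submodule.span ℝ {M | ∃ x ∈ L, M = x.map fun q => (q : ℝ)}}

/-- The derived algebra. -/
def derived (L : Submodule ℚ (Matrix (Fin n) (Fin n) ℚ)) :
    Submodule ℚ (Matrix (Fin n) (Fin n) ℚ) :=
  Submodule.span ℚ {z | ∃ x ∈ L, ∃ y ∈ L, z = x * y - y * x}

/-- `G` contains the derived group of the Mumford-Tate group of `M`: `exp (t Z)` is in `G` for all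
elements `Z` of the derived algebra of the Lie algebra of the Hodge group of `M`, and all complex
numbers `t`. -/
def ContainsDerived (N : Matrix (Fin n) (Fin n) ℝ) (G : Subgroup (GL (Fin n) ℂ)) : Prop :=
  ∀ Z ∈ derived (hodgeLie N), ∀ t : ℂ, ∃ x ∈ G,
    (x : Matrix (Fin n) (Fin n) ℂ) = NormedSpace.exp (t • Z.map fun q => (q : ℂ))

/-! ### The centre -/

variable (A) in
/-- The algebra of the endomorphisms of `H_1(A, ℂ)`, as matrices for the basis of the lattice. -/
def toC (X : Module.End ℚ A.H1) : Matrix (Fin (2 * g)) (Fin (2 * g)) ℂ :=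
  Matrix.of fun i j => (X (Pi.single j 1) i : ℂ)

variable (A) in
/-- `X` is an element of the centre of `𝔤`. -/
def InCentre (X : Module.End ℚ A.H1) : Prop := InLie A X ∧ ∀ Y, InLie A Y → Y * X = X * Y

variable (A) in
/-- The endomorphisms which commute with `X` and with the derived algebra of `𝔤` commute with the
centre of `𝔤`. -/
def Generates (X : Module.End ℚ A.H1) : Prop :=
  ∀ T : Module.End ℚ A.H1,
    (∀ Y, InLie A Y → ∀ Z, InLie A Z → T * (Y * Z - Z * Y) = (Y * Z - Z * Y) * T) →
    T * X = X * T → ∀ Z, InCentre A Z → T * Z = Z * T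

variable (A) in
/-- All relations `∑ i, x i = 0` between eigenvalues of `X` imply the relation `∑ i, y i = 0` between
the eigenvalues of `Y` for the same eigenvectors. -/
def RelationsOf (X Y : Module.End ℚ A.H1) : Prop :=
  ∀ (r : ℕ) (v : Fin r → Fin (2 * g) → ℂ) (x y : Fin r → ℂ),
    (∀ i, v i ≠ 0 ∧ Matrix.mulVec (toC A X) (v i) = x i • v i ∧
      Matrix.mulVec (toC A Y) (v i) = y i • v i) → ∑ i, x i = 0 → ∑ i, y i = 0

variable (A) in
/-- The centre of `𝔤` is rigid: the relations between the eigenvalues of a generating element of the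
centre hold for all elements of the centre. -/
def RigidCentre : Prop :=
  ∀ X, InCentre A X → Generates A X → ∀ Y, InCentre A Y → RelationsOf A X Y

variable (A) in
/-- `K⁻` is simple: the relations between the eigenvalues of a nonzero element of `K⁻` hold for all
elements of `K⁻`. -/
def SimpleCentre (z : Module.End ℚ A.H1) : Prop :=
  ∀ X Y, InMinus A z X → InMinus A z Y → X ≠ 0 → RelationsOf A X Y

variable (A) in
/-- `K` is a quartic field which contains no imaginary quadratic field: the squares of the nonzero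
elements of `K⁻` are not rational numbers. -/
def QuarticCentre (z : Module.End ℚ A.H1) : Prop :=
  Set.finrank ℚ {X | InField A z X} = 4 ∧ ∀ X, InMinus A z X → X ≠ 0 → ∀ c : ℚ, X * X ≠ c • 1

/-! ### Algebraic groups, torsors and the Mumford-Tate group -/

/-- A subgroup of `GL_R(ℂ)` defined by polynomials with rational coefficients. -/
def IsAlgebraicSubgroup {R : Type} [Fintype R] [DecidableEq R] (G : Subgroup (GL R ℂ)) : Prop :=
  ∃ I : Set (MvPolynomial (R × R) ℚ), ∀ x : GL R ℂ, x ∈ G ↔
    ∀ p ∈ I, MvPolynomial.aeval (fun b : R × R => (x : Matrix R R ℂ) b.1 b.2) p = 0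

/-- The torsor `G · T⁻¹` of `G`: the matrices `F` such that `F T` is an element of `G`. It is
defined over `ℚ̄` if `T` is a matrix with algebraic entries. -/
def torsor (G : Subgroup (GL (Fin n) ℂ)) (T : Matrix (Fin n) (Fin n) ℂ) :
    Set (Matrix (Fin n) (Fin n) ℂ) :=
  {F | ∃ x ∈ G, (x : Matrix (Fin n) (Fin n) ℂ) = F * T}

variable (A) in
/-- The Hodge structure of `H^1(A)`: the complex number `z` acts on `H_1(A, ℝ) = ℂ ^ g` by
multiplication, and on `H^1(A, ℝ)` by the transposed map, here in the basis of `H^1(A, ℚ)` which is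
dual to the basis of the lattice. -/
def hodge (z : ℂ) : Matrix (Fin (2 * g)) (Fin (2 * g)) ℂ :=
  Matrix.of fun i j => ((A.lam.repr (z • A.lam i) j : ℝ) : ℂ)

/-- `R` is the matrix of the action of the complex number `z` on `M`, in the Hodge structure given by
those of `H^1(A)` and of the Tate motives (`z` acts on `ℚ(1)` by `(z z̄)⁻¹`). -/
def IsHodgeMatrix (B : Fin n → Tensors A r) (z : ℂ) (R : Matrix (Fin n) (Fin n) ℂ) : Prop :=
  ∀ a i (j : Fin (r i) → Fin (2 * g)),
    ∑ j' : Fin (r i) → Fin (2 * g), (∏ k, hodge A z (j k) (j' k)) *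
        (B a i (fun k => Pi.single (j' k) 1) : ℂ) =
      (z * (starRingEnd ℂ) z) ^ (w i) * ∑ b, R b a * (B b i (fun k => Pi.single (j k) 1) : ℂ)

/-- The Mumford-Tate group of `M`: the smallest algebraic group over `ℚ` which contains the image of
the Deligne torus. -/
def mumfordTate (B : Fin n → Tensors A r) : Subgroup (GL (Fin n) ℂ) :=
  sInf {G | IsAlgebraicSubgroup G ∧ ∀ z : ℂ, z ≠ 0 → ∃ x ∈ G,
    IsHodgeMatrix w B z (x : Matrix (Fin n) (Fin n) ℂ)}

end Pool.Agent.U400.RF.Mot
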