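import Pool.Agent.U400.RF.MotDefs

set_option autoImplicit false

/-!
# Motives generated by abelian varieties of rank two: proof
-/

open Module Matrix Pool.Agent.Y102 Pool.Agent.W516.DR Pool.Agent.H204R3.GP

noncomputable section

namespace Pool.Agent.U400.RF.Mot

section Proof

variable {g : ℕ} {A : AbVar g}

theorem comm_iff (X : Module.End ℚ A.H1) : Commutes A X ↔ X ∈ N208.BT.CB A :=
  ⟨fun h P hP => h P (A.mem_EA.1 hP), fun h P hP => h P (A.mem_EA.2 hP)⟩

theorem mem_adjoin (z X : Module.End ℚ A.H1) :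
    InField A z X ↔ X ∈ (Algebra.adjoin ℚ {z}).toSubmodule := by
  rw [Subalgebra.mem_toSubmodule, Algebra.adjoin_singleton_eq_range_aeval]
  exact ⟨fun ⟨q, hq⟩ => ⟨q, hq.symm⟩, fun ⟨q, hq⟩ => ⟨q, hq.symm⟩⟩

theorem finrank_field (z : Module.End ℚ A.H1) :
    Set.finrank ℚ {X | InField A z X} = finrank ℚ (Algebra.adjoin ℚ {z}) := by
  have h1 : {X : Module.End ℚ A.H1 | InField A z X} =
      (Algebra.adjoin ℚ {z}).toSubmodule := Set.ext fun X => mem_adjoin z X
  unfold Set.finrank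
  rw [h1, Submodule.span_eq]
  rfl

theorem RankTwo.toHF {z : Module.End ℚ A.H1} {S : Finset ℝ} (h : RankTwo A z S) :
    N208.LC.HF A z 2 where
  mem := A.mem_EA.2 h.centre.endo
  cen := fun P hP => h.centre.central P (A.mem_EA.1 hP)
  skew := h.centre.skew
  ne := h.centre.nonzero
  field := fun q hq => h.centre.field _ ⟨q, rfl⟩ hq
  gen := fun P hP hc => h.centre.generates P (A.mem_EA.1 hP) fun Q hQ => hc Q (A.mem_EA.2 hQ)
  deg := by
    have h1 : {X : Module.End ℚ A.H1 | Commutes A X} = N208.BT.CB A := Set.ext fun X => comm_iff X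
    have h2 := h.degree
    rw [finrank_field] at h2
    unfold Set.finrank at h2
    rw [h1, Submodule.span_eq] at h2
    exact h2

theorem RankTwo.toH2 {z : Module.End ℚ A.H1} {S : Finset ℝ} (h : RankTwo A z S) :
    U400.RT.H2 A z S where
  hF := h.toHF
  ne := h.places.nonempty
  nz := by
    rintro a ha rfl
    exact h.places.disjoint 0 ha (by rwa [neg_zero])
  ind := h.places.indefinite

theorem RankTwo.prim {z : Module.End ℚ A.H1} {S : Finset ℝ} (h : RankTwo A z S) :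
    U400.RT.Prim A z S := by
  rcases h.primitive with h1 | h1
  · intro C hC hcl q hq
    exact h1 C hC hcl _ ⟨⟨q, rfl⟩, hq⟩
  · exact U400.RT.prim_of_coprime h.toH2 h.places.disjoint h1

theorem RankTwo.der {z : Module.End ℚ A.H1} {S : Finset ℝ} (h : RankTwo A z S)
    (𝔮 : Submodule ℚ (Module.End ℚ A.H1)) (hq : A.Full 𝔮) :
    Pool.Agent.Y102.der A.NA ≤ Pool.Agent.Y102.der 𝔮 := U400.RF.der_eq h.toH2 h.prim hq

/-- **The centre is rigid.** -/
theorem RankTwo.rigid {z : Module.End ℚ A.H1} {S : Finset ℝ} (h : RankTwo A z S)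
    (hc : SimpleCentre A z ∨ QuarticCentre A z) : N208.CT.Rigid A := by
  refine U400.RF.rigid h.toH2 fun p q hp hq h0 => ?_
  rcases hc with hc | hc
  · exact dom_of_matrix (hc _ _ ⟨⟨p, rfl⟩, hp⟩ ⟨⟨q, rfl⟩, hq⟩ h0)
  · exact U400.RT.quartic_dom h.toHF.field (by rw [← finrank_field]; exact hc.1)
      (fun r hr h0 c => hc.2 _ ⟨⟨r, rfl⟩, hr⟩ h0 c) p q hp hq h0

theorem RigidCentre.toRigid (hz : RigidCentre A) : N208.CT.Rigid A := by
  intro X hX hg Y hY
  refine dom_of_matrix (hz X ⟨hX.1, hX.2⟩ (fun T hT hTX Z hZ => ?_) Y ⟨hY.1, hY.2⟩)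
  exact hg T hT hTX Z ⟨hZ.1, hZ.2⟩

theorem IsFactor.toFac {g₁ g₂ : ℕ} {D : AbVar g₁} {A : AbVar g₂} {f : D.H1 →ₗ[ℚ] A.H1}
    {p : A.H1 →ₗ[ℚ] D.H1} (h : IsFactor D A f p) : Pool.Agent.R917.DT.Fac D A f p :=
  ⟨⟨h.inclusion.1, h.inclusion.2⟩, ⟨h.projection.1, h.projection.2⟩, h.split⟩

end Proof

theorem main {g s n : ℕ} (A : AbVar g) (r : Fin s → ℕ) (w : Fin s → ℤ)
    (B : Fin n → Tensors A r) (P : Matrix (Fin n) (Fin n) ℂ) (hM : IsMotive w B P)
    (N : Matrix (Fin n) (Fin n) ℝ) (hN : IsComplexStructure B N)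
    (G : Subgroup (GL (Fin n) ℂ)) (hG : IsAlgebraicSubgroup G) (T : Matrix (Fin n) (Fin n) ℂ)
    (hT : ∀ i j, IsAlgebraic ℚ (T i j)) (hP : P ∈ torsor G T) :
    (∀ (z : Module.End ℚ A.H1) (S : Finset ℝ), RankTwo A z S → ContainsDerived N G ∧
      (SimpleCentre A z ∨ QuarticCentre A z → mumfordTate w B ≤ G)) ∧
    ∀ (g' : ℕ) (D : AbVar g') (f : D.H1 →ₗ[ℚ] A.H1) (p : A.H1 →ₗ[ℚ] D.H1)
      (z : Module.End ℚ D.H1) (S : Finset ℝ), IsFactor D A f p → RankTwo D z S →
      DomainOf f p B N → ContainsDerived N G ∧ (RigidCentre A → mumfordTate w B ≤ G) := by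
  obtain ⟨hM', Wt, hW⟩ : N208.AM.Mot w B P ∧ ∃ Wt, N208.AM.WRel w B Wt := by
    have hwt : ∃ M, N208.AM.WRel w B M := by
      obtain ⟨M, h⟩ := hM.weight
      refine ⟨M, fun a i => MultilinearMap.ext fun v => ?_⟩
      rw [_root_.smul_apply, _root_.sum_apply, smul_eq_mul, h a i v]
      rfl
    refine ⟨⟨hM.basis, fun X hX => ?_, hwt, hM.det, hM.deRham⟩, hwt⟩
    obtain ⟨M, h⟩ := hM.lie X hX
    refine ⟨M, fun a i => MultilinearMap.ext fun v => ?_⟩
    rw [N208.AM.dact_apply, _root_.sum_apply, h a i v]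
    rfl
  have hrelL : ∀ X M, N208.AM.Rel B X M ↔ IsLieMatrix B X M := by
    intro X M
    constructor
    · intro h a i v
      have h1 := congrArg (fun φ : MultilinearMap ℚ (fun _ : Fin (r i) => A.H1) ℚ => φ v) (h a i)
      simp only [N208.AM.dact_apply, _root_.sum_apply, _root_.smul_apply, smul_eq_mul] at h1
      exact h1
    · intro h a i
      refine MultilinearMap.ext fun v => ?_
      rw [N208.AM.dact_apply, _root_.sum_apply, h a i v]
      rfl
  have hb : ∀ j : Fin (2 * g), A.bas j = Pi.single j 1 := fun j => by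
    unfold AbVar.bas
    rw [Pi.basisFun_apply]
  have hrel : ∀ z R, N208.AM.HRel w B z R → IsHodgeMatrix w B z R := by
    intro z R h a i j
    have h1 := h a i j
    simp only [hb] at h1
    exact h1
  -- the complex structure
  have hNR : N208.AM.RelR B AbVar.JJ N := by
    intro a i
    refine Basis.ext_multilinear (fun _ => A.lam) fun j => ?_
    have h1 := hN a i j
    rw [N208.AM.dact_apply, _root_.sum_apply]
    have h2 : (fun p => A.lam (j p)) = fun p => A.per (Pi.single (j p) 1) := by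
      funext p
      rw [← hb, A.per_bas]
    have h3 : ∀ b, (N b a • A.Phi (B b i)) (fun p => A.lam (j p)) =
        N b a * (B b i (fun p => Pi.single (j p) 1) : ℝ) := fun b => by
      rw [_root_.smul_apply, smul_eq_mul, h2, A.Phi_per]
    rw [Finset.sum_congr rfl fun b _ => h3 b, ← h1]
    refine Finset.sum_congr rfl fun k _ => ?_
    rw [AbVar.JJ_apply, ← A.lam.sum_repr (Complex.I • A.lam (j k)), MultilinearMap.map_update_sum]
    simp only [A.lam.sum_repr]
    refine Finset.sum_congr rfl fun l _ => ?_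
    rw [MultilinearMap.map_update_smul, smul_eq_mul]
    congr 1
    have h4 : A.lam l = A.per (Pi.single l 1) := by rw [← hb, A.per_bas]
    rw [h2, h4, N208.AM.update_per, A.Phi_per]
  -- the group
  have hdet : T.det ≠ 0 := by
    obtain ⟨x, -, hxT⟩ := hP
    intro h0
    have h1 : (x : Matrix (Fin n) (Fin n) ℂ).det = 0 := by
      rw [hxT, Matrix.det_mul, h0, mul_zero]
    exact (Matrix.GeneralLinearGroup.det x).ne_zero h1
  obtain ⟨T', h1, h2⟩ := Pool.Agent.R917.alg_inv hT hdet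
  obtain ⟨x, hx, hxT⟩ := hP
  have hH : N208.AM.PtM P _ := ⟨Pool.Agent.R917.algGrp_of hG, T, T', h1, h2, x, hx, hxT⟩
  -- the two conclusions, for a part of the tangent space
  have key1 : ∀ U : Set (Fin g → ℂ), N208.BT.RPart A U → N208.BT.DomU U B N →
      ContainsDerived N G := by
    intro U hU hα Z hZ t
    obtain ⟨L, hL1, hL2, hL3⟩ := N208.BT.main_derU hM' hW hH hU hNR hα
    have h3 : hodgeLie N ≤ L := sInf_le ⟨hL1, hL2⟩
    have h4 : derived (hodgeLie N) ≤
        N208.AM.LQ {M | ∃ x ∈ G, (x : Matrix (Fin n) (Fin n) ℂ) = M} := by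
      unfold derived
      rw [Submodule.span_le]
      rintro _ ⟨x, hx, y, hy, rfl⟩
      exact hL3 x (h3 hx) y (h3 hy)
    exact Pool.Agent.R917.exp_mem hH.grp fun d => (h4 hZ d).smul t
  have key2 : ∀ U : Set (Fin g → ℂ), N208.BT.RPart A U → N208.BT.DomU U B N →
      N208.CT.Rigid A → mumfordTate w B ≤ G := by
    intro U hU hα hR
    refine sInf_le ⟨hG, fun u hu => ?_⟩
    obtain ⟨⟨y, hy, hy'⟩, h4⟩ := N208.CT.main_CT hM' hW hH hR hU hNR hα hu
    refine ⟨y, hy, ?_⟩
    rw [hy']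
    exact hrel _ _ h4
  refine ⟨fun z S hA => ?_, fun g' D f p z S hF hD hdom => ?_⟩
  · have hU := U400.RF.rpart_univ hA.der
    have hα := U400.RF.domU_univ hM'.li N
    exact ⟨key1 _ hU hα, fun hc => key2 _ hU hα (hA.rigid hc)⟩
  · have hU := U400.RF.rpart_fac hF.toFac hD.der
    have hα : N208.BT.DomU (U400.RF.UF f p) B N := by
      intro q hq h0
      refine hdom q ?_ fun x hx => h0 x hx
      refine (Submodule.span_mono ?_) hq
      rintro _ ⟨X, hX, M, hM, rfl⟩
      refine ⟨X, ?_, M, (hrelL _ _).1 hM, rfl⟩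
      refine (Submodule.span_mono ?_) hX
      rintro _ ⟨X, hX, Y, hY, rfl⟩
      exact ⟨X, hX, Y, hY, rfl⟩
    exact ⟨key1 _ hU hα, fun hc => key2 _ hU hα hc.toRigid⟩

end Pool.Agent.U400.RF.Mot
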