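import Pool.Agent.N208.OU.Defs

set_option autoImplicit false

/-!
# 1-motives over abelian varieties of rank two: definitions

See `Pool/Agent/Results/MP_ae0f86_nt/RankTwoOneMotives.lean` for explanations. The definitions of 1-motives,
their periods and Mumford-Tate groups are those of `Pool/Agent/N208/OU/Defs.lean`.
-/

open Module Matrix Pool.Agent.Y102 Pool.Agent.W516.DR Pool.Agent.H204R3.GP Pool.Agent.N208.OneM

noncomputable section

namespace Pool.Agent.U400.RF.One

variable {g : ℕ} (A : AbVar g)

/-- `X` is an element of `ℚ[z]`: a polynomial in `z`. -/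
def InField (z X : EndQ A) : Prop := ∃ q : Polynomial ℚ, X = Polynomial.aeval z q

/-- `X` is an element of `K⁻`: a polynomial in `z` which is skew-symmetric for the polarization. -/
def InMinus (z X : EndQ A) : Prop :=
  InField A z X ∧ ∀ u v, A.om (X u) v + A.om u (X v) = 0

/-- `X` is an element of `K⁺`: a polynomial in `z` which is symmetric for the polarization. -/
def InPlus (z X : EndQ A) : Prop :=
  InField A z X ∧ ∀ u v, A.om (X u) v = A.om u (X v)

/-- The centre of the algebra of the endomorphisms is the field `ℚ[z]`, and `z` is skew-symmetric. -/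
structure CentreField (z : EndQ A) : Prop where
  endo : IsEndo A z
  central : Commutes A z
  generates : ∀ P, IsEndo A P → Commutes A P → InField A z P
  skew : ∀ u v, A.om (z u) v + A.om u (z v) = 0
  nonzero : z ≠ 0
  /-- the nonzero elements of `ℚ[z]` are injective -/
  field : ∀ X, InField A z X → X ≠ 0 → Function.Injective X

/-! ### The places -/

/-- `i a` is an eigenvalue of `z` on the tangent space; here `H_1(A, ℝ) = ℂ ^ g` is the tangent space,
and `A.ext z` is the real linear extension of `z`. -/
def IsEigenvalue (z : EndQ A) (a : ℝ) : Prop :=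
  ∃ x : Fin g → ℂ, x ≠ 0 ∧ A.ext z x = ((a : ℂ) * Complex.I) • x

/-- The nonempty set `S` represents the indefinite places: `± S` is the set of the numbers `a` such
that `i a` and `- i a` are eigenvalues of `z` on the tangent space. -/
structure Places (z : EndQ A) (S : Finset ℝ) : Prop where
  nonempty : S.Nonempty
  disjoint : ∀ a ∈ S, -a ∉ S
  indefinite : ∀ a : ℝ, (a ∈ S ∨ -a ∈ S) ↔ (IsEigenvalue A z a ∧ IsEigenvalue A z (-a))

/-- **Primitive sets of places**: let `C` be a subfield of `K⁺`, such that all the places which have the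
same restriction to `C` as a place in `S` are in `S`. Then `C = K⁺`. (The place given by `a` is
the embedding of `K⁺` which maps `q(z)` to `q(i a)`; here `i a` or `- i a` is an eigenvalue of `z` on the
tangent space.) -/
def Primitive (z : EndQ A) (S : Finset ℝ) : Prop :=
  ∀ C : Subalgebra ℚ (EndQ A), (∀ X ∈ C, InPlus A z X) →
    (∀ a b : ℝ, (a ∈ S ∨ -a ∈ S) → (IsEigenvalue A z b ∨ IsEigenvalue A z (-b)) →
      (∀ q : Polynomial ℚ, Polynomial.aeval z q ∈ C →
        Polynomial.aeval ((a : ℂ) * Complex.I) q = Polynomial.aeval ((b : ℂ) * Complex.I) q) →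
      (b ∈ S ∨ -b ∈ S)) →
    ∀ X, InPlus A z X → X ∈ C

/-- **Rank two**: the centre of the endomorphism algebra is the field `K = ℚ[z]`, the commutant of
the endomorphisms is of degree two over `K`, `S` represents the indefinite places, and it is primitive,
or the number of its elements is prime to `[K⁺ : ℚ]`. -/
structure RankTwo (z : EndQ A) (S : Finset ℝ) : Prop where
  centre : CentreField A z
  /-- the commutant of the endomorphisms is of dimension `4` over `ℚ[z]` -/
  degree : Set.finrank ℚ {X | Commutes A X} = 2 ^ 2 * Set.finrank ℚ {X | InField A z X}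
  places : Places A z S
  primitive : Primitive A z S ∨ Nat.Coprime S.card (Set.finrank ℚ {X | InPlus A z X})

/-! ### The centre -/

/-- `K⁻` is simple: the relations between the eigenvalues of a nonzero element of `K⁻` hold for all
elements of `K⁻`. -/
def SimpleCentre (z : EndQ A) : Prop :=
  ∀ X Y, InMinus A z X → InMinus A z Y → X ≠ 0 → RelationsOf A X Y

/-- `K` is a quartic field which contains no imaginary quadratic field: the squares of the nonzero
elements of `K⁻` are not rational numbers. -/
def QuarticCentre (z : EndQ A) : Prop :=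
  Set.finrank ℚ {X | InField A z X} = 4 ∧ ∀ X, InMinus A z X → X ≠ 0 → ∀ c : ℚ, X * X ≠ c • 1

/-! ### The condition on the domain -/

/-- Let `A` (with `f`, `p`) and `D` (with `f'`, `p'`) be factors of `C`. The part of the Hodge group of
`C` which acts trivially on the homology of `D` acts trivially on the Mumford-Tate domain of `A`: if a
real combination `∑ c_j X_j` of elements `X_j` of the derived algebra `[𝔤, 𝔤]` of the Lie algebra of the
Hodge group of `C` is zero on `H_1(D, ℝ)` (the image of the idempotent `f' ∘ p'`), then its restriction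
to `H_1(A, ℝ) = ℂ ^ g` commutes with the multiplication by `i`. -/
def DomainOf {g' g'' : ℕ} (C : AbVar g') (f : A.H1 →ₗ[ℚ] C.H1) (p : C.H1 →ₗ[ℚ] A.H1)
    (D : AbVar g'') (f' : D.H1 →ₗ[ℚ] C.H1) (p' : C.H1 →ₗ[ℚ] D.H1) : Prop :=
  ∀ (k : ℕ) (c : Fin k → ℝ) (X : Fin k → EndQ C), (∀ j, X j ∈ derivedLie C) →
    (∀ x, C.ext (f'.comp p' : EndQ C) x = x → ∑ j, c j • C.ext (X j) x = 0) →
      ∀ x, ∑ j, c j • A.ext (restr A C f p (X j)) (Complex.I • x) =
        Complex.I • ∑ j, c j • A.ext (restr A C f p (X j)) x

end Pool.Agent.U400.RF.One
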