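import Pool.Agent.U400.RF.OneDefs
import Pool.Agent.U400.RF.Main
import Pool.Agent.N208.OU.Main

set_option autoImplicit false

/-!
# 1-motives over abelian varieties of rank two: proof
-/

open Module Matrix Pool.Agent.Y102 Pool.Agent.R917.OM Pool.Agent.R917.BX Pool.Agent.W516.DR
  Pool.Agent.H204R3.GP Pool.Agent.N208.UR Pool.Agent.N208.OneM

noncomputable section

namespace Pool.Agent.U400.RF.One

section Proof

variable {g : ℕ} {A : AbVar g}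

theorem comm_iff' (X : EndQ A) : Commutes A X ↔ X ∈ N208.BT.CB A :=
  ⟨fun h P hP => h P (A.mem_EA.1 hP), fun h P hP => h P (A.mem_EA.2 hP)⟩

theorem mem_adjoin (z X : EndQ A) :
    InField A z X ↔ X ∈ (Algebra.adjoin ℚ {z}).toSubmodule := by
  rw [Subalgebra.mem_toSubmodule, Algebra.adjoin_singleton_eq_range_aeval]
  exact ⟨fun ⟨q, hq⟩ => ⟨q, hq.symm⟩, fun ⟨q, hq⟩ => ⟨q, hq.symm⟩⟩

theorem finrank_field (z : EndQ A) :
    Set.finrank ℚ {X | InField A z X} = finrank ℚ (Algebra.adjoin ℚ {z}) := by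
  have h1 : {X : EndQ A | InField A z X} =
      (Algebra.adjoin ℚ {z}).toSubmodule := Set.ext fun X => mem_adjoin z X
  unfold Set.finrank
  rw [h1, Submodule.span_eq]
  rfl

theorem RankTwo.toHF {z : EndQ A} {S : Finset ℝ} (h : RankTwo A z S) :
    N208.LC.HF A z 2 where
  mem := A.mem_EA.2 h.centre.endo
  cen := fun P hP => h.centre.central P (A.mem_EA.1 hP)
  skew := h.centre.skew
  ne := h.centre.nonzero
  field := fun q hq => h.centre.field _ ⟨q, rfl⟩ hq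
  gen := fun P hP hc => h.centre.generates P (A.mem_EA.1 hP) fun Q hQ => hc Q (A.mem_EA.2 hQ)
  deg := by
    have h1 : {X : EndQ A | Commutes A X} = N208.BT.CB A := Set.ext fun X => comm_iff' X
    have h2 := h.degree
    rw [finrank_field] at h2
    unfold Set.finrank at h2
    rw [h1, Submodule.span_eq] at h2
    exact h2

theorem RankTwo.toH2 {z : EndQ A} {S : Finset ℝ} (h : RankTwo A z S) :
    U400.RT.H2 A z S where
  hF := h.toHF
  ne := h.places.nonempty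
  nz := by
    rintro a ha rfl
    exact h.places.disjoint 0 ha (by rwa [neg_zero])
  ind := h.places.indefinite

theorem RankTwo.prim {z : EndQ A} {S : Finset ℝ} (h : RankTwo A z S) :
    U400.RT.Prim A z S := by
  rcases h.primitive with h1 | h1
  · intro C hC hcl q hq
    exact h1 C hC hcl _ ⟨⟨q, rfl⟩, hq⟩
  · exact U400.RT.prim_of_coprime h.toH2 h.places.disjoint h1

theorem RankTwo.der {z : EndQ A} {S : Finset ℝ} (h : RankTwo A z S)
    (𝔮 : Submodule ℚ (EndQ A)) (hq : A.Full 𝔮) :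
    Pool.Agent.Y102.der A.NA ≤ Pool.Agent.Y102.der 𝔮 := U400.RF.der_eq h.toH2 h.prim hq

/-- **The centre is rigid.** -/
theorem RankTwo.rigid {z : EndQ A} {S : Finset ℝ} (h : RankTwo A z S)
    (hc : SimpleCentre A z ∨ QuarticCentre A z) : N208.CT.Rigid A := by
  refine U400.RF.rigid h.toH2 fun p q hp hq h0 => ?_
  rcases hc with hc | hc
  · exact dom_of_matrix (hc _ _ ⟨⟨p, rfl⟩, hp⟩ ⟨⟨q, rfl⟩, hq⟩ h0)
  · exact U400.RT.quartic_dom h.toHF.field (by rw [← finrank_field]; exact hc.1)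
      (fun r hr h0 c => hc.2 _ ⟨⟨r, rfl⟩, hr⟩ h0 c) p q hp hq h0

theorem toFac {g₁ g₂ : ℕ} {D : AbVar g₁} {A : AbVar g₂} {f : D.H1 →ₗ[ℚ] A.H1}
    {p : A.H1 →ₗ[ℚ] D.H1} (h : IsFactor D A f p) : Pool.Agent.R917.DT.Fac D A f p :=
  ⟨⟨h.inclusion.1, h.inclusion.2⟩, ⟨h.projection.1, h.projection.2⟩, h.split⟩

end Proof

section Final

variable {g n s : ℕ} {A : AbVarG g} {u : Fin n → Fin g → ℂ} {v : Fin s → Fin g → ℂ}
  {ℓ : Fin n → Fin s → ℂ} {G : Subgroup (GL (Betti g n s) ℂ)}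

variable {g' : ℕ} {C : AbVar g'} {f : A.toAbVar.H1 →ₗ[ℚ] C.H1} {p : C.H1 →ₗ[ℚ] A.toAbVar.H1}

theorem dom_fac {g'' : ℕ} {D : AbVar g''} {f' : D.H1 →ₗ[ℚ] C.H1} {p' : C.H1 →ₗ[ℚ] D.H1}
    (hF : IsFactor A.toAbVar C f p) (hD : DomainOf A.toAbVar C f p D f' p')
    (N : Matrix (Fin (2 * g)) (Fin (2 * g)) ℝ)
    (hN : N208.AM.RelR (N208.OU.hB p) (AbVar.JJ : (Fin g' → ℂ) →ₗ[ℝ] (Fin g' → ℂ)) N) :
    N208.BT.DomU (U400.RF.UF f' p') (N208.OU.hB p) N := by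
  refine N208.OU.domU_of (hfac hF) (fun q hq h0 x => ?_) hN
  obtain ⟨k, c, X, hX⟩ := Submodule.mem_span_set'.1 hq
  choose Y hY hYe using fun j => (X j).2
  have h1 : ∀ y, q.1 y = ∑ j, c j • C.ext (Y j) y := by
    intro y
    rw [← hX, Prod.fst_sum, LinearMap.sum_apply]
    refine Finset.sum_congr rfl fun j _ => ?_
    rw [hYe j]
    rfl
  have h2 : ∀ y, q.2 y = ∑ j, c j • A.ext (restr A.toAbVar C f p (Y j)) y := by
    intro y
    rw [← hX, Prod.snd_sum, LinearMap.sum_apply]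
    refine Finset.sum_congr rfl fun j _ => ?_
    rw [hYe j]
    rfl
  rw [h2, h2]
  refine hD k c Y (fun j => ?_) (fun y hy => ?_) x
  · refine (Submodule.span_mono ?_) (hY j)
    rintro _ ⟨X, hX, Y, hY, rfl⟩
    exact ⟨X, hX, Y, hY, rfl⟩
  · rw [← h1]
    exact h0 y hy

theorem three (hM : IsOneMotive A u v ℓ) (hG : IsAlgebraicSubgroup G)
    (hP : ContainsPeriods A u v ℓ G) (hF : IsFactor A.toAbVar C f p) {U : Set (Fin g' → ℂ)}
    (hr : N208.BT.RPart C U)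
    (hα : ∀ N, N208.AM.RelR (N208.OU.hB p) (AbVar.JJ : (Fin g' → ℂ) →ₗ[ℝ] (Fin g' → ℂ)) N →
      N208.BT.DomU U (N208.OU.hB p) N)
    (hR : N208.CT.Rigid C) : mumfordTate A u v ℓ ≤ G := by
  obtain ⟨T, hT, q, hq, hqT⟩ := hP
  rw [periodMatrix_eq] at hqT
  have hpt := ptM_of hG hT hq hqT
  obtain ⟨K₁, hK₁, hrat⟩ := exists_rat_mult A (pt (dat A u v ℓ)) (by
    rintro (i | l)
    · exact Or.inl (hM.point i)
    · exact Or.inl (hM.dual l))
  have hdet := N208.OU.detJ_of (hfac hF) hR hr hα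
  obtain ⟨h1, h2⟩ := Pool.Agent.R917.DT.hodge_stab6 hpt
    ⟨hM.point, hM.neg, hM.sub, hM.log⟩ hrat hdet
  refine sInf_le ⟨hG, fun z hz => ?_⟩
  obtain ⟨x, hx, hxe⟩ := Pool.Agent.R917.exp_mem hpt.grp fun k =>
    ((h2 k).smul ((Complex.log z).re : ℂ)).add ((h1 k).smul ((Complex.log z).im : ℂ))
  exact ⟨x, hx, deligne_exp A hz hxe⟩

theorem two (hM : IsOneMotive A u v ℓ) (hG : IsAlgebraicSubgroup G)
    (hP : ContainsPeriods A u v ℓ G) (hF : IsFactor A.toAbVar C f p) {U : Set (Fin g' → ℂ)}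
    (hr : N208.BT.RPart C U)
    (hα : ∀ N, N208.AM.RelR (N208.OU.hB p) (AbVar.JJ : (Fin g' → ℂ) →ₗ[ℝ] (Fin g' → ℂ)) N →
      N208.BT.DomU U (N208.OU.hB p) N)
    {Z : Matrix (Betti g n s) (Betti g n s) ℚ}
    (hZ : Z ∈ derived (mtLie A u v ℓ)) (t : ℂ) :
    IsIn G (NormedSpace.exp (t • cplx Z)) := by
  obtain ⟨T, hT, q, hq, hqT⟩ := hP
  rw [periodMatrix_eq] at hqT
  have hpt := ptM_of hG hT hq hqT
  obtain ⟨K₁, hK₁, hrat⟩ := exists_rat_mult A (pt (dat A u v ℓ)) (by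
    rintro (i | l)
    · exact Or.inl (hM.point i)
    · exact Or.inl (hM.dual l))
  have hLg := gg_Lg hpt
  have hfc := hfac hF
  obtain ⟨𝔮, h𝔮⟩ : ∃ 𝔮, 𝔮 = Pool.Agent.R917.DT.Fac.qq f p (aa (gg A.toAbVar n s
    {M | ∃ x ∈ G, (x : Matrix (Betti g n s) (Betti g n s) ℂ) = M})) := ⟨_, rfl⟩
  have hfull : C.Full 𝔮 := by
    rw [h𝔮]
    exact hfc.qq_full (fun X hX Y hY => hLg.full.br X hX Y hY) (fun D lam => ⟨_, hLg.per D lam, rfl⟩)
  have hJ := N208.OU.ZZ_J hfc hfull hr hα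
  have hbr : ∀ x ∈ N208.OU.ZZ f p 𝔮, ∀ y ∈ N208.OU.ZZ f p 𝔮,
      x * y - y * x ∈ (Pool.Agent.Y102.der 𝔮).map (Pool.Agent.R917.DT.rs f p) :=
    fun x hx y hy => N208.OU.ZZ_br hfc hfull hx hy
  have hle : (Pool.Agent.Y102.der 𝔮).map (Pool.Agent.R917.DT.rs f p) ≤ N208.OU.ZZ f p 𝔮 := le_sup_right
  have hle' : (Pool.Agent.Y102.der 𝔮).map (Pool.Agent.R917.DT.rs f p) ≤ aa (gg A.toAbVar n s
      {M | ∃ x ∈ G, (x : Matrix (Betti g n s) (Betti g n s) ℂ) = M}) := by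
    rintro _ ⟨X, hX, rfl⟩
    have h1 := hfull.der_le hX
    rw [h𝔮] at h1
    exact h1.2
  have hNA := N208.OU.ZZ_NA hfc hfull
  -- the Lie algebra of the Mumford-Tate group is in the normalizer
  have h1 : mtLie A u v ℓ ≤ N208.OU.LL A n s
      {M | ∃ x ∈ G, (x : Matrix (Betti g n s) (Betti g n s) ℂ) = M} (N208.OU.ZZ f p 𝔮) := by
    refine sInf_le ⟨fun X hX Y hY => N208.OU.LL_brr hNA hX hY fun x hx y hy =>
      hle (hbr x hx y hy), fun w => ⟨_, ?_, lie_deligne A w⟩⟩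
    have hc := fun lam => N208.OU.exists_LL hpt ⟨hM.point, hM.neg, hM.sub, hM.log⟩ hrat hJ lam
    refine Submodule.add_mem _ (Submodule.smul_mem _ _ ?_) (Submodule.smul_mem _ _ ?_)
    · refine N208.OU.mem_span_of_comp fun lam => ?_
      rw [N208.OU.comp_tW]
      exact (hc lam).2
    · refine N208.OU.mem_span_of_comp fun lam => ?_
      rw [N208.OU.comp_tJ]
      exact (hc lam).1
  obtain ⟨W, hW, hW1, hW2⟩ := Pool.Agent.R917.DT.weight hpt
  have h2 : Z ∈ N208.OU.gQ A n s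
      {M | ∃ x ∈ G, (x : Matrix (Betti g n s) (Betti g n s) ℂ) = M} := by
    unfold derived at hZ
    refine (Submodule.span_le.2 ?_) hZ
    rintro _ ⟨X, hX, Y, hY, rfl⟩
    exact N208.OU.LL_gQ hLg hW hW1 hW2 hle' (N208.OU.LL_brr hNA (h1 hX) (h1 hY) hbr)
  obtain ⟨L, hL, rfl⟩ := h2
  exact Pool.Agent.R917.exp_mem hpt.grp fun k => (hL.2 k).smul t

/-- **Main theorem.** -/
theorem main (hM : IsOneMotive A u v ℓ) (hG : IsAlgebraicSubgroup G)
    (hP : ContainsPeriods A u v ℓ G) (g' : ℕ) (C : AbVar g') (f : A.toAbVar.H1 →ₗ[ℚ] C.H1)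
    (p : C.H1 →ₗ[ℚ] A.toAbVar.H1) (hF : IsFactor A.toAbVar C f p) :
    (∀ (z : EndQ C) (S : Finset ℝ), RankTwo C z S →
      (∀ Z ∈ derived (mtLie A u v ℓ), ∀ t : ℂ, IsIn G (NormedSpace.exp (t • cplx Z))) ∧
      (SimpleCentre C z ∨ QuarticCentre C z → mumfordTate A u v ℓ ≤ G)) ∧
    ∀ (g'' : ℕ) (D : AbVar g'') (f' : D.H1 →ₗ[ℚ] C.H1) (p' : C.H1 →ₗ[ℚ] D.H1) (z : EndQ D)
      (S : Finset ℝ), IsFactor D C f' p' → RankTwo D z S → DomainOf A.toAbVar C f p D f' p' →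
      (∀ Z ∈ derived (mtLie A u v ℓ), ∀ t : ℂ, IsIn G (NormedSpace.exp (t • cplx Z))) ∧
      (RigidCentre C → mumfordTate A u v ℓ ≤ G) := by
  refine ⟨fun z S hC => ?_, fun g'' D f' p' z S hF' hD hdom => ?_⟩
  · have hU := U400.RF.rpart_univ hC.der
    have hα : ∀ N, N208.AM.RelR (N208.OU.hB p) (AbVar.JJ : (Fin g' → ℂ) →ₗ[ℝ] (Fin g' → ℂ)) N →
        N208.BT.DomU Set.univ (N208.OU.hB p) N :=
      fun N _ => U400.RF.domU_univ (N208.OU.mot (hfac hF)).li N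
    exact ⟨fun Z hZ t => two hM hG hP hF hU hα hZ t,
      fun hc => three hM hG hP hF hU hα (hC.rigid hc)⟩
  · have hU := U400.RF.rpart_fac (toFac hF') hD.der
    have hα := dom_fac hF hdom
    exact ⟨fun Z hZ t => two hM hG hP hF hU hα hZ t,
      fun hc => three hM hG hP hF hU hα (hc.toRigid C)⟩

end Final

end Pool.Agent.U400.RF.One
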