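import Pool.Agent.U400.RF.Cen
import Pool.Agent.U400.RT.Quat

set_option autoImplicit false
set_option linter.unusedSectionVars false

/-!
# Rank two, full subalgebras: the derived algebra
-/

open Module Matrix TensorProduct

noncomputable section

namespace Pool.Agent.U400.RF

open Pool.Agent.Y102 Pool.Agent.W516.DR Pool.Agent.H204R3.GP Pool.Agent.W516.KC
  Pool.Agent.H204R3.SP Pool.Agent.TH119.MX Pool.Agent.R917 Pool.Agent.N208.AM Pool.Agent.N208.AD
  Pool.Agent.N208.BT Pool.Agent.N208.LC Pool.Agent.U400.RT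

variable {g : ℕ} {A : AbVar g} {z : Module.End ℚ A.H1} {al : ℝ}
  {𝔮 : Submodule ℚ (Module.End ℚ A.H1)} (hq : A.Full 𝔮)

include hq

section

variable (h : HQ A z al) {N : ℕ} {sg : Fin N → ℝ} {φ : VN N →ₗ[ℝ] (Fin g → ℂ)}
  (w : WN A z al N sg φ)

include h w in
/-- The matrices of the elements of the derived algebra have trace zero. -/
theorem trace_der {d : Module.End ℚ A.H1} (hd : d ∈ der 𝔮) {m : MN N}
    (hm : ∀ x, A.ext d (φ x) = φ (m *ᵥ x)) : m.trace = 0 := by
  have key : ∀ d ∈ der 𝔮, ∃ m : MN N, (∀ x, A.ext d (φ x) = φ (m *ᵥ x)) ∧ m.trace = 0 := by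
    intro d hd
    unfold der at hd
    induction hd using Submodule.span_induction with
    | mem d hd =>
      obtain ⟨X, hX, Y, hY, rfl⟩ := hd
      obtain ⟨a, ha⟩ := Pool.Agent.N441.BGSJ.mat_NA h w (hq.le hX)
      obtain ⟨b, hb⟩ := Pool.Agent.N441.BGSJ.mat_NA h w (hq.le hY)
      refine ⟨a * b - b * a, fun x => ?_, ?_⟩
      · rw [ext_sub, ext_mul, ext_mul, LinearMap.sub_apply, Module.End.mul_apply,
          Module.End.mul_apply, hb, ha, ha, hb, Matrix.sub_mulVec, map_sub,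
          Matrix.mulVec_mulVec, Matrix.mulVec_mulVec]
      · rw [Matrix.trace_sub, Matrix.trace_mul_comm, sub_self]
    | zero =>
      refine ⟨0, fun x => ?_, Matrix.trace_zero _ _⟩
      rw [Matrix.zero_mulVec, map_zero, ext_zero, LinearMap.zero_apply]
    | add a b _ _ ha hb =>
      obtain ⟨m, hm, ht⟩ := ha
      obtain ⟨m', hm', ht'⟩ := hb
      exact ⟨m + m', fun x => by
        rw [ext_add, LinearMap.add_apply, hm, hm', Matrix.add_mulVec, map_add], by
        rw [Matrix.trace_add, ht, ht', add_zero]⟩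
    | smul c a _ ha =>
      obtain ⟨m, hm, ht⟩ := ha
      refine ⟨(c : ℝ) • m, fun x => ?_, by rw [Matrix.trace_smul, ht, smul_zero]⟩
      rw [ext_smul, LinearMap.smul_apply, hm, Matrix.smul_mulVec, map_smul]
  obtain ⟨m', hm', ht'⟩ := key d hd
  rw [mat_un w (m := m) (m' := m') fun x => by rw [← hm, hm']]
  exact ht'

end

section two

variable (h : HQ A z al) {sg : Fin 2 → ℝ} {φ : VN 2 →ₗ[ℝ] (Fin g → ℂ)} (w : WN A z al 2 sg φ)
  (field : ∀ q : Polynomial ℚ, Polynomial.aeval z q ≠ 0 →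
    Function.Injective (Polynomial.aeval z q))
  (gen : ∀ P ∈ A.EA, (∀ Q ∈ A.EA, P * Q = Q * P) → ∃ q : Polynomial ℚ, P = Polynomial.aeval z q)

theorem der_mem_CB {X : Module.End ℚ A.H1} (hX : X ∈ der 𝔮) : X ∈ CB A := fun _ hP =>
  A.NA_comm (hq.le (hq.der_le hX)) hP

include h w field gen in
/-- The products `XY + YX` are in the centre. -/
theorem anti_poly {X Y : Module.End ℚ A.H1} (hX : X ∈ der 𝔮) (hY : Y ∈ der 𝔮) :
    ∃ q : Polynomial ℚ, X * Y + Y * X = Polynomial.aeval z q := by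
  have hXC := der_mem_CB hq hX
  have hYC := der_mem_CB hq hY
  obtain ⟨a, ha⟩ := N383.LCU.mat_CB h w hXC
  obtain ⟨b, hb⟩ := N383.LCU.mat_CB h w hYC
  have e1 := anti_scalar (trace_der hq h w hX ha) (trace_der hq h w hY hb)
  have hT : X * Y + Y * X ∈ CB A := (CB A).add_mem (CB_mul' hXC hYC) (CB_mul' hYC hXC)
  have hTm : ∀ x, A.ext (X * Y + Y * X) (φ x) = φ (((a * b).trace • (1 : MN 2)) *ᵥ x) := by
    intro x
    rw [← e1, ext_add, ext_mul, ext_mul, LinearMap.add_apply, Module.End.mul_apply,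
      Module.End.mul_apply, ha, hb, ha, hb, Matrix.add_mulVec, map_add, Matrix.mulVec_mulVec,
      Matrix.mulVec_mulVec]
  refine gen _ ?_ fun Q hQ => hT Q hQ
  intro W hW
  have hWC : W ∈ CB A := fun P hP => A.NA_comm (A.LA_le_NA hW) hP
  obtain ⟨c, hc⟩ := N383.LCU.mat_CB h w hWC
  rw [← sub_eq_zero]
  refine CB_zero h w field ((CB A).sub_mem (CB_mul' hWC hT) (CB_mul' hT hWC)) fun x => ?_
  rw [ext_sub, ext_mul, ext_mul, LinearMap.sub_apply, Module.End.mul_apply,
    Module.End.mul_apply, hTm, hc, hc, hTm, Matrix.mulVec_mulVec, Matrix.mulVec_mulVec,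
    Matrix.mul_smul, Matrix.smul_mul, mul_one, one_mul, sub_self]

include h w field gen in
/-- The derived algebra is closed under multiplication by the elements `XY + YX`. -/
theorem anti_mul {X Y Z : Module.End ℚ A.H1} (hX : X ∈ der 𝔮) (hY : Y ∈ der 𝔮)
    (hZ : Z ∈ der 𝔮) : (X * Y + Y * X) * Z ∈ der 𝔮 := by
  refine mul_closed (der 𝔮) (fun X hX Y hY => Submodule.subset_span
    ⟨X, hq.der_le hX, Y, hq.der_le hY, rfl⟩) hq.perfect ?_ X hX Y hY Z hZ
  intro X hX Y hY Z hZ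
  obtain ⟨q, hqp⟩ := anti_poly hq h w field gen hX hY
  rw [hqp]
  refine (comm_aeval' ?_ q).symm
  exact der_mem_CB hq hZ z h.mem

end two

end Pool.Agent.U400.RF
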