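import Pool.Agent.U400.RF.Quat
import Pool.Agent.U400.RT.Sign

set_option autoImplicit false
set_option linter.unusedSectionVars false

/-!
# Rank two, full subalgebras: signs
-/

open Module Matrix TensorProduct

noncomputable section

namespace Pool.Agent.U400.RF

open Pool.Agent.Y102 Pool.Agent.W516.DR Pool.Agent.H204R3.GP Pool.Agent.W516.KC
  Pool.Agent.H204R3.SP Pool.Agent.TH119.MX Pool.Agent.R917 Pool.Agent.N208.AM Pool.Agent.N208.AD
  Pool.Agent.N208.BT Pool.Agent.N208.LC Pool.Agent.U400.RT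

variable {g : ℕ} {A : AbVar g} {z : Module.End ℚ A.H1} {al : ℝ}
  {𝔮 : Submodule ℚ (Module.End ℚ A.H1)} (hq : A.Full 𝔮)

include hq

/-- **At the indefinite places there is an element with a positive square.** -/
theorem exists_pos (h : HQ A z al) {sg : Fin 2 → ℝ} {φ : VN 2 →ₗ[ℝ] (Fin g → ℂ)}
    (w : WN A z al 2 sg φ) (hm : Mixed sg)
    (field : ∀ q : Polynomial ℚ, Polynomial.aeval z q ≠ 0 →
      Function.Injective (Polynomial.aeval z q))
    (gen : ∀ P ∈ A.EA, (∀ Q ∈ A.EA, P * Q = Q * P) →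
      ∃ q : Polynomial ℚ, P = Polynomial.aeval z q) :
    ∃ X ∈ der 𝔮, ∃ q : Polynomial ℚ, X * X = Polynomial.aeval z q ∧
      0 < (Polynomial.aeval ((al : ℂ) * Complex.I) q).re := by
  by_contra hcon
  push Not at hcon
  have key : ∀ X ∈ der 𝔮, ∀ m : MN 2, (∀ x, A.ext X (φ x) = φ (m *ᵥ x)) →
      (m * m).trace.re ≤ 0 := by
    intro X hX m hmx
    obtain ⟨q', hq1⟩ := anti_poly hq h w field gen hX hX
    have hq2 : X * X = Polynomial.aeval z ((1 / 2 : ℚ) • q') := by
      rw [map_smul, ← hq1]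
      module
    have h1 := hcon X hX _ hq2
    have h2 : m * m = Polynomial.aeval ((al : ℂ) * Complex.I) ((1 / 2 : ℚ) • q') • (1 : MN 2) := by
      refine mat_un w fun x => ?_
      rw [← Matrix.mulVec_mulVec, ← hmx, ← hmx, ← Module.End.mul_apply, ← ext_mul, hq2,
        N768.BGPD.ext_aeval h w, Matrix.smul_mulVec, Matrix.one_mulVec]
    rw [h2, Matrix.trace_smul, Matrix.trace_one, Fintype.card_fin, smul_eq_mul]
    rw [Complex.mul_re]
    simp only [Nat.cast_ofNat, Complex.re_ofNat, Complex.im_ofNat, mul_zero, sub_zero]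
    linarith
  have hrr := Pool.Agent.N755.BGRR.main g A z al h 2 sg φ w 𝔮 hq
  have hY := all_su hm hrr (hyp_sks hm) (by rw [Matrix.trace_fin_two]; simp)
  obtain ⟨y, hy, hym⟩ := hY
  unfold spE at hy
  obtain ⟨n, t, s, hs⟩ := Submodule.mem_span_set'.1 hy
  have hX : ∀ i, ∃ X ∈ (der 𝔮 : Set (Module.End ℚ A.H1)),
    ((s i : Module.End ℝ (Fin g → ℂ))) = A.ext X := fun i => (s i).2
  choose X hXd hXe using hX
  have hmx : ∀ i, ∃ m : MN 2, ∀ x, A.ext (X i) (φ x) = φ (m *ᵥ x) := fun i =>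
    Pool.Agent.N441.BGSJ.mat_NA h w (hq.le (hq.der_le (hXd i)))
  choose M hM using hmx
  let Q : (Fin n → ℝ) → ℝ := fun t => ((∑ i, t i • M i) * (∑ i, t i • M i)).trace.re
  have hQc : Continuous Q := by
    have h1 : Continuous fun t : Fin n → ℝ => (∑ i, t i • M i) := by fun_prop
    have h2 : Continuous fun t : Fin n → ℝ => (∑ i, t i • M i) * (∑ i, t i • M i) := h1.matrix_mul h1
    exact Complex.continuous_re.comp h2.matrix_trace
  have hden : DenseRange (fun t : Fin n → ℚ => (fun i => ((t i : ℚ) : ℝ))) :=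
    DenseRange.piMap fun _ => Rat.denseRange_cast
  have h0 : ∀ t, Q t ≤ 0 := by
    intro t
    refine hden.induction_on t (isClosed_le hQc continuous_const) fun r => ?_
    change ((∑ i, ((r i : ℚ) : ℝ) • M i) * (∑ i, ((r i : ℚ) : ℝ) • M i)).trace.re ≤ 0
    refine key (∑ i, r i • X i) (Submodule.sum_mem _ fun i _ => Submodule.smul_mem _ _ (hXd i)) _
      fun x => ?_
    have e0 : ∀ s : Finset (Fin n), A.ext (∑ i ∈ s, r i • X i) (φ x) =
        ∑ i ∈ s, φ ((((r i : ℚ) : ℝ) • M i) *ᵥ x) := by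
      intro s
      induction s using Finset.induction_on with
      | empty => rw [Finset.sum_empty, Finset.sum_empty, ext_zero, LinearMap.zero_apply]
      | insert i s hi ih =>
        rw [Finset.sum_insert hi, Finset.sum_insert hi, ext_add, LinearMap.add_apply, ih,
          ext_smul, LinearMap.smul_apply, hM, Matrix.smul_mulVec, map_smul]
    rw [e0, Matrix.sum_mulVec, map_sum]
  have h1 := h0 t
  have h2 : (∑ i, t i • M i) = !![0, 1; 1, 0] := by
    refine mat_un w fun x => ?_
    rw [← hym, ← hs, LinearMap.sum_apply, Matrix.sum_mulVec, map_sum]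
    refine Finset.sum_congr rfl fun i _ => ?_
    rw [LinearMap.smul_apply, hXe, hM, Matrix.smul_mulVec, map_smul]
  have h3 : Q t = 2 := by
    change ((∑ i, t i • M i) * (∑ i, t i • M i)).trace.re = 2
    rw [h2, Matrix.trace_fin_two]
    simp
    norm_num
  rw [h3] at h1
  norm_num at h1

end Pool.Agent.U400.RF
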